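import Pool.Agent.W_b4801b_t10.Final
import Pool.Agent.W_b4801b_t10.NeatD
import Pool.Agent.W_b4801b_t10.LocD
import Pool.Agent.W_b4801b_t10.SmallRes
import Pool.Agent.W_b4801b_t10.Reg
import Pool.Agent.W_b4801b_h24.ClauseB
import Pool.Agent.W_b4801b_h57.Quad57
import Pool.Agent.W_b4801b_h90.Six

set_option autoImplicit false

/-!
# Semisimplicity of `V_ℓ` for a set of primes of positive density

Let `S = (V_ℓ)` be a polarized pure `ℚ`-rational compatible system of weight `w` of representations of
the absolute Galois group of a field `k`, with dense Frobenius elements (for example the étale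
cohomology `H^w(X ×_k k̄, ℚ_ℓ)` of a smooth projective variety `X` over a finitely generated field of
characteristic zero).  Let `D` be the maximal number of different roots of the Frobenius polynomials
`P_x` after a finite extension of `k`; a place `x` is neat if `P_x` has `D` different roots and no
quotient of two different roots is a root of unity.

The set `A` of the primes `ℓ` such that, for some neat `x` with `p_x ≠ ℓ`, the map `α ↦ q_x ^ w / α`
permutes the roots of every irreducible factor of `P_x` over `ℚ_ℓ`, has lower Dirichlet density at least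
`1 / [L : ℚ]`, where `L` is the intersection of the splitting fields of the `P_x`, `x` neat, and at least
`2 ^ (-⌊D / 2⌋)`.

For `ℓ ∈ A` the representation `V_ℓ` is semisimple if and only if the trace form of the algebra of its
potential endomorphisms is nondegenerate, and it is semisimple if `D = dim V`, for example if the
Hodge-Tate weights are distinct for one prime.

Let `D = dim V`, and let `V_ℓ` be balanced: the squares of the determinants of the stable subspaces are
powers of the cyclotomic character, up to characters of bounded order.  Then `V_ℓ` is semisimple if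
`D ≤ 5`, and also if `D ≤ 6`, the weight `w` is odd and the Frobenius elements of the places `x` with
`q_x` not a square are dense (as for every finitely generated field of characteristic zero).  If
`D ≤ 7` then for every neat place `x` there is a rational number `d > 0`, independent of `ℓ`, such that
`V_ℓ` is semisimple unless `ℓ = p_x` or `ℓ` splits in the imaginary quadratic field `ℚ(√-d)`.
-/

open Pool.Agent.B4801b Pool.Agent.B4801bSq Pool.Agent.T10 Polynomial

universe u v

theorem Pool.Agent.Results.MP_b4801b_ag.DensityTheorem.result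
    (k : Type u) [Field k] (w : ℕ) (S : CompSys.{u, v} k w) (hd : DenseFrob S) :
    (∃! D : ℕ, RootNumber S D) ∧ ∀ D : ℕ, RootNumber S D →
      (0 < commonDeg S D ∧ LowerDensityGE (conjPrimes S D) (1 / commonDeg S D) ∧
        LowerDensityGE (conjPrimes S D) (1 / 2 ^ (D / 2))) ∧
      (∀ (ℓ : ℕ) [Fact ℓ.Prime],
        (ℓ ∈ conjPrimes S D → ((S.rep ℓ).Semisimple ↔ PotTraceNondeg (S.rep ℓ).ρ)) ∧
        (ℓ ∈ conjPrimes S D → dimV S ℓ = D → (S.rep ℓ).Semisimple) ∧
        (BalDet (S.rep ℓ) → dimV S ℓ = D → (D ≤ 5 ∨ D ≤ 6 ∧ Odd w ∧ DenseOdd S) →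
          (S.rep ℓ).Semisimple)) ∧
      (D ≤ 7 → ∀ x, Neat S D x → ∃ d : ℚ, 0 < d ∧ ∀ (ℓ : ℕ) [Fact ℓ.Prime], ℓ ≠ x.p →
        BalDet (S.rep ℓ) → dimV S ℓ = D → ¬ IsSquare (algebraMap ℚ ℚ_[ℓ] (-d)) →
          (S.rep ℓ).Semisimple) ∧
      (∀ (ℓ r : ℕ) [Fact ℓ.Prime] [Fact r.Prime], Regular (S.rep r) → dimV S ℓ = D) := by
  refine ⟨existsUnique_D S hd, fun D ⟨hm, hx⟩ => ⟨?_, ?_, ?_, ?_⟩⟩
  · obtain ⟨h1, h2⟩ := density_theorem S hd D hm hx
    exact ⟨h1, h2, conj_lowdens S D hx⟩
  · intro ℓ _
    refine ⟨fun hℓ => (clauseB S D hd hm ℓ hℓ).1, fun hℓ hdim => ?_, fun hb hdim h5 => ?_⟩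
    · obtain ⟨_, x, hxn, hxp, hdual⟩ := hℓ
      refine semisimple_of_dual S x hxn.1 ℓ (Ne.symm hxp) hdual (Or.inl ?_)
      have hdeg : (S.P x).natDegree = D := by
        rw [← hdim, dimV]
        exact (Final_natDegree S x hxn.1 ℓ (Ne.symm hxp)).symm
      have hfin := Polynomial.rootSet_finite (S.P x) ℂ
      have h1 : Fintype.card ((S.P x).rootSet ℂ) = (S.P x).natDegree := by
        rw [hdeg, ← hxn.2.2.1, Set.ncard_eq_toFinset_card', Set.toFinset_card]
      exact (Polynomial.card_rootSet_eq_natDegree_iff_of_splits hxn.2.1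
        (IsAlgClosed.splits _)).1 h1
    · rcases h5 with h5 | ⟨h6, hw, hodd⟩
      · exact semisimple_of_small S hd D hm hx ℓ hdim h5 (balanced_of_balDet _ hb)
      · exact semisimple_of_six S hodd D hm hx ℓ hdim h6 hw (balanced_of_balDet _ hb)
  · intro h7 x hxn
    obtain ⟨d, hd0, h⟩ := semisimple_of_quad_at S D x hxn h7
    exact ⟨d, hd0, fun ℓ _ hp hb hdim hsq => h ℓ hp hdim (balanced_of_balDet _ hb) hsq⟩
  · intro ℓ r _ _ hreg
    obtain ⟨x, hxn, -⟩ := exists_neat_of_regularLog S hd r (regularLog_of_regular _ hreg)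
    have hm' : MaxRoots S (Module.finrank ℚ_[r] (S.rep r).V) :=
      ⟨⊤, isOpen_univ, fun y hy _ => maxRoots_finrank S hd r y hy⟩
    rw [dimV, finrank_eq S hd ℓ r]
    exact D_unique S hd _ _ hm' ⟨x, hxn⟩ hm hx
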