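import Pool.Agent.W_b4801b_h65.BalAt
import Pool.Agent.W_b4801b_h31.NewtonIn

set_option autoImplicit false

/-!
# Semisimplicity for all primes from Newton polygons

Let `S = (V_ℓ)` be a polarized pure `ℚ`-rational compatible system of weight `2 j` over a field `k`.

(A) Let `x` be a place, `p_x ≠ ℓ`, which passes the Newton test. If `W` is an isotropic stable subspace of
`V_ℓ` such that `det (F_x | W(j))` is a root of unity then `P_x` has at least `dim W` disjoint pairs of roots
of Tate type. Let `V_ℓ` be balanced at `F_x`: this determinant is a root of unity for all `W` (true over every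
number field if `x` lies over a place of the largest CM subfield which is fixed by complex conjugation).
Then `V_ℓ` is semisimple if `P_x` has no pair of roots of Tate type; and if the pairing is symmetric then
`W^⊥ / W` is semisimple for an isotropic stable `W` whose dimension is at most the number of disjoint
pairs.

(B) Let the isotropic stable subspaces `W` of `V_ℓ` be balanced (a power of `det W(j)` is trivial; true for
number fields without CM subfields). If all places of the system pass the Newton test, the Frobenius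
elements are dense in an open subgroup and potentially unipotent stable subspaces of `V_ℓ(j)` are
potentially trivial, then every isotropic stable subspace consists of Tate classes over a finite extension
of `k`, and `V_ℓ` is semisimple if and only if the pairing is nondegenerate on the Tate classes over
every finite extension.

The Newton test holds at the ordinary places if the Hodge numbers are `1, b, 1` or `1, 1, b, 1, 1`, for
example for the second cohomology of surfaces with geometric genus one.
-/

open Pool.Agent.B4801b Pool.Agent.T10 Pool.Agent.T10K Pool.Agent.B4801bH31 Pool.Agent.B4801bH65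
open Polynomial Module

universe u v

theorem Pool.Agent.Results.MP_b4801b_ag.NewtonTest.result
    (k : Type u) [Field k] (j : ℕ) (S : CompSys.{u, v} k (2 * j)) :
    (∃ M : ℕ, 0 < M ∧ ∀ (ℓ : ℕ) [Fact ℓ.Prime], ∀ x ∈ S.Pl, ℓ ≠ x.p →
      NewtonTest (S.P x) ((x.q : ℚ) ^ (2 * j)) x.p →
        (∀ (W : Submodule ℚ_[ℓ] (S.rep ℓ).V) (hW : IsStable (S.rep ℓ).ρ W),
          Isotropic (S.rep ℓ).ψ W → DetRoot (S.rep ℓ) W hW x.frob →
            TatePairs (S.P x) ((x.q : ℚ) ^ (2 * j)) M (finrank ℚ_[ℓ] W)) ∧
        (BalAt (S.rep ℓ) x.frob →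
          (NoTatePair (S.P x) ((x.q : ℚ) ^ (2 * j)) → (S.rep ℓ).Semisimple) ∧
          (SymmRep (S.rep ℓ) → ∃ W : Submodule ℚ_[ℓ] (S.rep ℓ).V,
            IsStable (S.rep ℓ).ρ W ∧ Isotropic (S.rep ℓ).ψ W ∧
              TatePairs (S.P x) ((x.q : ℚ) ^ (2 * j)) M (finrank ℚ_[ℓ] W) ∧
              SemisimpleBetween (S.rep ℓ).ρ W (perp (S.rep ℓ).ψ W)))) ∧
    (∀ (ℓ : ℕ) [Fact ℓ.Prime], BalRep (S.rep ℓ) → ∀ U₀ : Subgroup (Gal k),
      IsOpen (U₀ : Set (Gal k)) → DenseIn S U₀ → Newton S → UnipTrivRep (S.rep ℓ) →
        IsotropicTate (S.rep ℓ) ∧ ((S.rep ℓ).Semisimple ↔ TateNondegRep (S.rep ℓ))) := by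
  refine ⟨?_, fun ℓ _ hbal U₀ hU₀ hd hN hU => newton_in S U₀ hU₀ hd hN ℓ hbal hU⟩
  obtain ⟨M, hM, h⟩ := pairs_of_one S
  refine ⟨M, hM, fun ℓ _ x hx hℓ hN => ⟨h ℓ x hx hℓ hN, fun hb =>
    ⟨fun hT => semisimple_at S ℓ x hx hℓ hN hb hT, fun hs => ?_⟩⟩⟩
  obtain ⟨W, hW, hI, hss⟩ := exists_reduction (S.rep ℓ) fun a b hab => (hs b a).trans hab
  exact ⟨W, hW, hI, h ℓ x hx hℓ hN W hW hI (hb W hW hI), hss⟩
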