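import Pool.Agent.W_b4801b_h32.ParFinal

set_option autoImplicit false

/-!
# Parabolic criterion for the semisimplicity of Galois representations

Let `S` be a polarized pure compatible system over a field `k` of characteristic zero whose determinants are
algebraic with values in the field `F` (for example `H^w(X ×_k k̄, ℚ_ℓ)`, `X` smooth projective over a
number field `k`, `F = ℚ` if `k` contains no CM field), `D` a set of rational tensors which are fixed by subgroups of
finite index of the Galois group (for example the motivated cycles on the powers of `X`), `𝔤` the Lie algebra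
of these tensors (for motivated cycles: the Lie algebra of the motivated Galois group plus scalars), whose
trace form is assumed to be nondegenerate.

(A) If the Galois group normalizes `𝔤_ℓ`, then `V_ℓ` is semisimple, or the Galois group normalizes a proper
parabolic subalgebra `q` of `𝔤_ℓ`, and every Frobenius element is balanced on the space killed by the
orthogonal of `q`.
(B) If at one place `x` the parabolic test holds (over the complex numbers), then `V_ℓ` is semisimple for all
`ℓ ≠ p_x`.
(C) If at one place `x` the quotients of the eigenvalues of Frobenius generate a group of rank at least the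
rank of `𝔤` modulo scalars (the Frobenius torus is maximal), then `V_ℓ` is semisimple for all `ℓ ≠ p_x`.
-/

open Pool.Agent.B4801b Pool.Agent.B4801bT Polynomial

universe u v

theorem Pool.Agent.Results.MP_b4801b_ag.ParabolicCriterion.result
    (k : Type u) [Field k] [CharZero k] (w : ℕ) (F : Type*) [Field F] [Algebra ℚ F]
    (S : AlgCompSys.{u, v} k w F) (D : TensorData S.toCompSys) (hT : TraceNondeg D.T)
    (ℓ : ℕ) [Fact ℓ.Prime] :
    (D.Normal ℓ → (S.rep ℓ).Semisimple ∨ BalancedParabolic S D ℓ) ∧
    ∀ x ∈ S.Pl, ℓ ≠ x.p → RootCond F (S.P x) →
      (D.Normal ℓ ∧ ParabolicTest D.T (S.P x) ℂ ∨ RankLE D.T (S.P x)) → (S.rep ℓ).Semisimple :=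
  ⟨fun hn => semisimple_or_exists k w F S D hT ℓ hn, fun x hx hℓ hZ h => h.elim
    (fun h1 => semisimple_of_parabolic k w F S D x hx hT hZ h1.2 ℓ hℓ h1.1)
    (fun h1 => semisimple_of_rank k w F S D x hx hT h1 hZ ℓ hℓ)⟩
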