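import Pool.Agent.W_b4801b_h57.GFinal
import Pool.Agent.W_b4801b_h57.GPos
import Pool.Agent.W_b4801b_h57.ZBridge
import Pool.Agent.W_b4801b_h57.ChRank

set_option autoImplicit false

/-!
# A zero-one law for the semisimplicity of polarized Galois representations

Let `V` be a polarized `ℓ`-adic representation of weight `w` of the absolute Galois group `G` of a field `k` of
characteristic zero, `dim V = b`, such that for every Galois-stable subspace `W` of `V` the character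
`det(W)^2 ⊗ χ_ℓ^(w dim W)` is killed by `N` (for `V = H^w(X ×_k k̄, ℚ_ℓ)`, `X` smooth projective over `ℚ`, one can take `N`
depending only on `b`).  Let `t_n` be the dimension of `End_G (V^{⊗ n})` and `s_n` the rank of the trace form
`(f, h) ↦ tr (f h)` on it.

There are constants `c, δ > 0` which depend only on `b` and `N` such that the following are equivalent:
(i) `V` is semisimple; (ii) `s_n = t_n` for all `n`; (iii) `s_n = t_n` for one `n ≥ N ⌊b / 2⌋`;
(iv) `t_n < c n^δ s_n` for one `n ≥ 1`.  Always `s_n ≤ t_n ≤ (n + 1)^(b²) s_n`.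

So the semisimplicity of `V` follows as soon as, on one power `X^{2n}`, the trace form has rank at least `C n^(-δ) t_n`
(for instance if so many of the Tate classes are algebraic, modulo numerical equivalence).
-/

open Pool.Agent.B4801b Pool.Agent.B4801bZ

universe u v

theorem Pool.Agent.Results.MP_b4801b_ag.ZeroOneLaw.result (b N : ℕ) (hb : 1 ≤ b) (hN : 1 ≤ N) :
    ∃ c δ : ℝ, 0 < c ∧ 0 < δ ∧
      ∀ (k : Type u) [Field k] [CharZero k] (w ℓ : ℕ) [Fact ℓ.Prime] (S : PolRep.{u, v} k w ℓ),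
        rkNum S = b → PolBal S N →
          List.TFAE [
            S.Semisimple,
            ∀ n : ℕ, sNum S n = tNum S n,
            ∃ n : ℕ, N * (b / 2) ≤ n ∧ sNum S n = tNum S n,
            ∃ n : ℕ, 1 ≤ n ∧ (tNum S n : ℝ) < c * (n : ℝ) ^ δ * sNum S n] ∧
          ∀ n : ℕ, sNum S n ≤ tNum S n ∧ tNum S n ≤ (n + 1) ^ (b ^ 2) * sNum S n := by
  obtain ⟨c, δ, hc, hδ, hcons⟩ := ZO.consts b N hb hN
  refine ⟨c, δ, hc, hδ, ?_⟩
  intro k _ _ w ℓ _ S hdim hbal
  change Module.finrank ℚ_[ℓ] S.V = b at hdim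
  have hb' : 1 ≤ Module.finrank ℚ_[ℓ] S.V := by rw [hdim]; exact hb
  have hmain := ZO.main_rep S.ρ (fun σ => cyc k ℓ σ ^ w) S.ψ S.nondeg S.equivariant hN hbal hb'
  have hle : ∀ n, rankTrace S.ρ n ≤ dimEnd S.ρ n := ZO.rank_le S.ρ
  have hdl : ∀ n, dimEnd S.ρ n ≤ (n + 1) ^ (b ^ 2) * rankTrace S.ρ n := by
    intro n
    have h := ZO.dim_le S.ρ (fun σ => cyc k ℓ σ ^ w) S.ψ S.nondeg S.equivariant hb' n
    rwa [hdim] at h
  have hpos : ∀ n, 1 ≤ rankTrace S.ρ n :=
    ZO.rank_pos S.ρ (fun σ => cyc k ℓ σ ^ w) S.ψ S.nondeg S.equivariant hb'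
  simp only [sNum, tNum, rankTr_eq, dimEn_eq]
  refine ⟨?_, fun n => ⟨hle n, hdl n⟩⟩
  tfae_have 1 → 2 := fun hs n =>
    Pool.Agent.B4801bC.rank_eq ℓ S.ρ (fun σ => cyc k ℓ σ ^ w) S.ψ S.nondeg S.equivariant hb'
      S.continuous hs n
  tfae_have 2 → 3 := fun h => ⟨N * (b / 2), le_rfl, h _⟩
  tfae_have 3 → 1 := by
    rintro ⟨n, hn, he⟩
    by_contra hns
    have h1 := (hmain hns).1 n (by rw [hdim]; exact hn)
    exact absurd he h1.ne
  tfae_have 2 → 4 := by
    intro h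
    obtain ⟨n, hn1, hn2⟩ : ∃ n : ℕ, 1 ≤ n ∧ 1 < c * (n : ℝ) ^ δ := by
      have ht : Filter.Tendsto (fun n : ℕ => c * (n : ℝ) ^ δ) Filter.atTop Filter.atTop :=
        ((tendsto_rpow_atTop hδ).comp tendsto_natCast_atTop_atTop).const_mul_atTop hc
      obtain ⟨n, hn⟩ := ((ht.eventually_gt_atTop 1).and (Filter.eventually_ge_atTop 1)).exists
      exact ⟨n, hn.2, hn.1⟩
    refine ⟨n, hn1, ?_⟩
    rw [← h n]
    have h1 : (0 : ℝ) < rankTrace S.ρ n := by exact_mod_cast hpos n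
    nlinarith
  tfae_have 4 → 1 := by
    rintro ⟨n, hn, he⟩
    by_contra hns
    have h1 := hcons n _ _ hn (hle n) fun J hJ => (hmain hns).2 J n (by rw [hdim]; exact hJ)
    linarith
  tfae_finish
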